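import Pool.Agent.H.MP_76c039_co.B

set_option autoImplicit false

namespace Pool.Agent.Results.MP_76c039_co.Odd

open Pool.Agent.H.MP_76c039_co

theorem result :
    ∀ (G : Type) [Group G],
      ((∃ H : Subgroup G, (H : Set G).Infinite ∧ ∀ h ∈ H, h * h = 1 → h = 1) ∨
        {h : G | h * h = 1}.Infinite) →
      ∀ (k : ℕ) (c : G → Fin k) (n : ℕ),
        ∃ (A : Finset G) (g : G),
          n ≤ A.card ∧
          (∀ a ∈ A, ∀ b ∈ A, c a = c b) ∧
          (A : Set G) = (fun x => g * x⁻¹ * g) '' (A : Set G) := by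
  intro G _ hG k c n
  apply of_not_few
  intro hF
  rcases hG with ⟨H, hH, hinv⟩ | hG
  · have : Infinite H := hH.to_subtype
    exact not_few (G := H) (fun h hh => Subtype.ext (hinv _ h.2 (congrArg Subtype.val hh)))
      (hF.sub H)
  · obtain ⟨T, hT, hc⟩ := hG.exists_subset_card_eq (k * n + 1)
    have := hF 1 T (by
      intro h hh
      have h1 : h * h = 1 := hT hh
      rw [inv_eq_of_mul_eq_one_right h1])
    omega

end Pool.Agent.Results.MP_76c039_co.Odd
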